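import Mathlib

set_option autoImplicit false

namespace Pool.Agent.Results.MP_716318_co.SmallBlocking

/-- `F` blocks every Hamilton path of `K_n`: for every ordering `v` of the `n` vertices there are
two disjoint edges `{v i, v (i+1)}`, `{v j, v (j+1)}` of the path whose union belongs to `F`. -/
def BlocksPaths (n : ℕ) (F : Finset (Finset (Fin n))) : Prop :=
  ∀ v : Fin n ≃ Fin n, ∃ (i j : ℕ) (hij : i + 1 < j) (hj : j + 1 < n),
    ({v ⟨i, by omega⟩, v ⟨i + 1, by omega⟩, v ⟨j, by omega⟩, v ⟨j + 1, hj⟩} :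
      Finset (Fin n)) ∈ F

/-- Bit `k` of `T`. -/
def tb (T k : ℕ) : Bool := Nat.beq (Nat.land (Nat.shiftRight T k) 1) 1

lemma tb_iff (T k : ℕ) : tb T k = true ↔ T.testBit k = true := by
  have h : Nat.land (Nat.shiftRight T k) 1 = (T >>> k) % 2 := Nat.and_one_is_mod _
  unfold tb
  rw [h, Nat.beq_eq, Nat.testBit_eq_decide_div_mod_eq, Nat.shiftRight_eq_div_pow]
  simp

lemma tb_lor (T v x : ℕ) (h : tb (Nat.lor T (2 ^ v)) x = true) : tb T x = true ∨ x = v := by
  rw [tb_iff] at h ⊢
  have h2 : (T ||| 2 ^ v).testBit x = true := h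
  rw [Nat.testBit_or, Nat.testBit_two_pow] at h2
  simp at h2
  rcases h2 with h2 | h2
  · exact Or.inl h2
  · exact Or.inr h2.symm

/-- Depth-first search over the orderings; `true` means that every completion of the current
partial path has two disjoint edges whose union is (the mask of) a member of the family `T`. -/
def go (n T : ℕ) : ℕ → List ℕ → ℕ → ℕ → ℕ → Bool
  | 0, _, _, _, _ => false
  | f + 1, es, prev, last, used =>
    (List.range n).all fun v => tb used v ||
      (es.any (fun g => tb T (2 ^ last + 2 ^ v + g)) ||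
        go n T f (prev :: es) (2 ^ last + 2 ^ v) v (Nat.lor used (2 ^ v)))

lemma go_sound (n T : ℕ) (w : ℕ → ℕ) (hw : ∀ i < n, w i < n)
    (hinj : ∀ i < n, ∀ j < n, w i = w j → i = j) :
    ∀ (f L : ℕ) (es : List ℕ) (prev last used : ℕ), f + L = n → 2 ≤ L →
      prev = 2 ^ w (L - 2) + 2 ^ w (L - 1) → last = w (L - 1) →
      (∀ g ∈ es, ∃ i, i + 3 ≤ L ∧ g = 2 ^ w i + 2 ^ w (i + 1)) →
      (∀ x, tb used x = true → ∃ i < L, w i = x) →
      go n T f es prev last used = true →
      ∃ i j, i + 1 < j ∧ j + 1 < n ∧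
        tb T (2 ^ w j + 2 ^ w (j + 1) + (2 ^ w i + 2 ^ w (i + 1))) = true := by
  intro f
  induction f with
  | zero =>
    intro L es prev last used _ _ _ _ _ _ h
    simp [go] at h
  | succ f ih =>
    intro L es prev last used hL hL2 hprev hlast hes hused h
    rw [go, List.all_eq_true] at h
    have h1 := h (w L) (List.mem_range.2 (hw L (by omega)))
    rw [Bool.or_eq_true, Bool.or_eq_true] at h1
    rcases h1 with h1 | h1 | h1
    · obtain ⟨i, hi, he⟩ := hused _ h1
      exact absurd (hinj i (by omega) L (by omega) he) (by omega)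
    · rw [List.any_eq_true] at h1
      obtain ⟨g, hg, hT⟩ := h1
      obtain ⟨i, hi, rfl⟩ := hes g hg
      refine ⟨i, L - 1, by omega, by omega, ?_⟩
      have : L - 1 + 1 = L := by omega
      rw [this, ← hlast]
      exact hT
    · refine ih (L + 1) _ _ _ _ (by omega) (by omega) ?_ ?_ ?_ ?_ h1
      · rw [hlast]
        congr 3
      · rfl
      · intro g hg
        rw [List.mem_cons] at hg
        rcases hg with rfl | hg
        · refine ⟨L - 2, by omega, ?_⟩
          rw [hprev]
          congr 3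
          omega
        · obtain ⟨i, hi, he⟩ := hes g hg
          exact ⟨i, by omega, he⟩
      · intro x hx
        rcases tb_lor _ _ _ hx with hx | hx
        · obtain ⟨i, hi, he⟩ := hused _ hx
          exact ⟨i, by omega, he⟩
        · exact ⟨L, by omega, hx.symm⟩

/-- The search from the first vertex `s`. -/
def start (n T s : ℕ) : Bool :=
  (List.range n).all fun v => Nat.beq v s ||
    go n T (n - 2) [] (2 ^ s + 2 ^ v) v (Nat.lor (2 ^ s) (2 ^ v))

lemma start_sound (n T : ℕ) (hn : 2 ≤ n) (w : ℕ → ℕ) (hw : ∀ i < n, w i < n)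
    (hinj : ∀ i < n, ∀ j < n, w i = w j → i = j) (h : start n T (w 0) = true) :
    ∃ i j, i + 1 < j ∧ j + 1 < n ∧
        tb T (2 ^ w j + 2 ^ w (j + 1) + (2 ^ w i + 2 ^ w (i + 1))) = true := by
  rw [start, List.all_eq_true] at h
  have h1 := h (w 1) (List.mem_range.2 (hw 1 (by omega)))
  rw [Bool.or_eq_true, Nat.beq_eq] at h1
  rcases h1 with h1 | h1
  · exact absurd (hinj 1 (by omega) 0 (by omega) h1) (by omega)
  · refine go_sound n T w hw hinj (n - 2) 2 _ _ _ _ (by omega) le_rfl rfl rfl (by simp) ?_ h1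
    intro x hx
    rcases tb_lor _ _ _ hx with hx | hx
    · rw [tb_iff, Nat.testBit_two_pow] at hx
      exact ⟨0, by omega, by simpa using hx⟩
    · exact ⟨1, by omega, hx.symm⟩

/-- The mask of a set of vertices. -/
def mask {n : ℕ} (S : Finset (Fin n)) : ℕ := ∑ x ∈ S, 2 ^ (x : ℕ)

/-- The family of 4-sets whose masks are the bits of `T`. -/
def fam (n T : ℕ) : Finset (Finset (Fin n)) :=
  (Finset.powersetCard 4 Finset.univ).filter (fun S => tb T (mask S) = true)

lemma fam_card4 (n T : ℕ) : ∀ S ∈ fam n T, S.card = 4 := by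
  intro S hS
  rw [fam, Finset.mem_filter, Finset.mem_powersetCard] at hS
  exact hS.1.2

/-- Soundness of the search. -/
lemma blocks_of_start (n T : ℕ) (hn : 2 ≤ n) (v : Fin n ≃ Fin n)
    (h : start n T (v ⟨0, by omega⟩) = true) :
    ∃ (i j : ℕ) (hij : i + 1 < j) (hj : j + 1 < n),
    ({v ⟨i, by omega⟩, v ⟨i + 1, by omega⟩, v ⟨j, by omega⟩, v ⟨j + 1, hj⟩} :
      Finset (Fin n)) ∈ fam n T := by
  have hwd : ∀ i (hi : i < n), (if h : i < n then ((v ⟨i, h⟩ : Fin n) : ℕ) else 0) = v ⟨i, hi⟩ :=
    fun i hi => dif_pos hi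
  obtain ⟨i, j, hij, hj, hT⟩ := start_sound n T hn
    (fun i => if h : i < n then ((v ⟨i, h⟩ : Fin n) : ℕ) else 0)
    (fun i hi => by simp only [hwd i hi]; exact (v _).2)
    (fun i hi j hj hij => by
      simp only [hwd i hi, hwd j hj] at hij
      have := v.injective (Fin.ext hij)
      simpa using this)
    (by simp only [hwd 0 (by omega)]; exact h)
  refine ⟨i, j, hij, hj, ?_⟩
  simp only [hwd i (by omega), hwd (i + 1) (by omega), hwd j (by omega), hwd (j + 1) hj] at hT
  have hne : ∀ a b (ha : a < n) (hb : b < n), a ≠ b → v ⟨a, ha⟩ ≠ v ⟨b, hb⟩ := by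
    intro a b ha hb hab h
    exact hab (by simpa using v.injective h)
  have h1 := hne i (i + 1) (by omega) (by omega) (by omega)
  have h2 := hne i j (by omega) (by omega) (by omega)
  have h3 := hne i (j + 1) (by omega) (by omega) (by omega)
  have h4 := hne (i + 1) j (by omega) (by omega) (by omega)
  have h5 := hne (i + 1) (j + 1) (by omega) (by omega) (by omega)
  have h6 := hne j (j + 1) (by omega) (by omega) (by omega)
  have n1 : v ⟨i, by omega⟩ ∉ ({v ⟨i + 1, by omega⟩, v ⟨j, by omega⟩, v ⟨j + 1, hj⟩} :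
      Finset (Fin n)) := by
    simp only [Finset.mem_insert, Finset.mem_singleton, not_or]
    exact ⟨h1, h2, h3⟩
  have n2 : v ⟨i + 1, by omega⟩ ∉ ({v ⟨j, by omega⟩, v ⟨j + 1, hj⟩} : Finset (Fin n)) := by
    simp only [Finset.mem_insert, Finset.mem_singleton, not_or]
    exact ⟨h4, h5⟩
  have n3 : v ⟨j, by omega⟩ ∉ ({v ⟨j + 1, hj⟩} : Finset (Fin n)) := by
    simp only [Finset.mem_singleton]
    exact h6
  rw [fam, Finset.mem_filter, Finset.mem_powersetCard]
  refine ⟨⟨Finset.subset_univ _, ?_⟩, ?_⟩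
  · rw [Finset.card_insert_of_notMem n1, Finset.card_insert_of_notMem n2,
      Finset.card_insert_of_notMem n3, Finset.card_singleton]
  · rw [mask, Finset.sum_insert n1, Finset.sum_insert n2, Finset.sum_insert n3,
      Finset.sum_singleton]
    convert hT using 2
    ring

def T6 : ℕ := 0x68808000
def T7 : ℕ := 0x68680068000000
def T8 : ℕ := 0x1000000001008000004200240000000000240042000001008000000008000

lemma card6 : (fam 6 T6).card = 5 := by decide +kernel
lemma card7 : (fam 7 T7).card = 9 := by decide +kernel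
lemma card8 : (fam 8 T8).card = 14 := by decide +kernel

lemma start6 : ∀ s < 6, start 6 T6 s = true := by decide +kernel
lemma start7 : ∀ s < 7, start 7 T7 s = true := by decide +kernel
lemma start8 : ∀ s < 8, start 8 T8 s = true := by decide +kernel

/-- **Negative answer.**  For `n = 6`, `n = 7` and `n = 8` there is a family `F` of 4-subsets of an
`n`-set with `|F| = C(n-2, 2) - 1` (namely `5 < 6`, `9 < 10`, `14 < 15`) such that every Hamilton
path of `K_n` contains two disjoint edges whose union belongs to `F`. -/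
theorem result : ∀ n : ℕ, (n = 6 ∨ n = 7 ∨ n = 8) →
    ∃ F : Finset (Finset (Fin n)), (∀ S ∈ F, S.card = 4) ∧ F.card + 1 = (n - 2).choose 2 ∧
      BlocksPaths n F := by
  rintro n (rfl | rfl | rfl)
  · exact ⟨fam 6 T6, fam_card4 6 T6, by rw [card6]; decide,
      fun v => blocks_of_start 6 T6 (by decide) v (start6 _ (v _).2)⟩
  · exact ⟨fam 7 T7, fam_card4 7 T7, by rw [card7]; decide,
      fun v => blocks_of_start 7 T7 (by decide) v (start7 _ (v _).2)⟩
  · exact ⟨fam 8 T8, fam_card4 8 T8, by rw [card8]; decide,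
      fun v => blocks_of_start 8 T8 (by decide) v (start8 _ (v _).2)⟩

end Pool.Agent.Results.MP_716318_co.SmallBlocking
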